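import Pool.Agent.Run7.h991.BC.Iface

set_option autoImplicit false

open MeasureTheory FourierTransform SchwartzMap
open scoped ENNReal ContDiff

namespace Run7.h224.BC

open Run7.h991.BC

theorem t_FIN (hLB : S_LB) (hA : S_UBA) (hB : S_UBB) (hTR : S_TR) : S_FIN := by
  intro n hn Φ hΦ α p hα hp hp1
  obtain ⟨C1, hC1, h1⟩ := hLB n Φ hn hΦ α p hα hp hp1
  have key : ∃ C2 : ℝ≥0∞, C2 ≠ ⊤ ∧ ∀ F : Finset (ℕ × (Fin n → ℤ)),
      ∃ u : E n → ℝ, ContDiff ℝ ∞ u ∧ HasCompactSupport u ∧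
        (∀ q ∈ F, ∀ x ∈ cube q.1 q.2, 1 ≤ u x) ∧
        besov Φ α p (cx u) ≤
          C2 * ∑ q ∈ F, ENNReal.ofReal (side q.1 ^ (max ((n : ℝ) - α * p) 0)) := by
    rcases lt_or_ge (α * p) n with h | h
    · obtain ⟨C, hC, hF⟩ := hA n hn Φ hΦ α p hα hp hp1 h
      refine ⟨C, hC, fun F => ?_⟩
      rw [max_eq_left (by linarith)]
      exact hF F
    · obtain ⟨C, hC, hF⟩ := hB n hn Φ hΦ α p hα hp hp1
      refine ⟨C, hC, fun F => ?_⟩
      obtain ⟨u, h1, h2, h3, h4⟩ := hF F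
      refine ⟨u, h1, h2, h3, ?_⟩
      rw [max_eq_right (by linarith)]
      simpa using h4
  obtain ⟨C2, hC2, h2⟩ := key
  refine ⟨C2 * C1 + 1, by finiteness, fun D hD1 hD2 K hK => ⟨?_, ?_⟩⟩
  · unfold cap
    refine le_iInf₂ fun u hu => ?_
    obtain ⟨f, rfl⟩ := hD2 u hu.1
    exact (iInf₂_le _ hu).trans (hTR n Φ α p hp (by linarith) f)
  · have hne : C2 * C1 + 1 ≠ 0 := by positivity
    have hnt : C2 * C1 + 1 ≠ ⊤ := by finiteness
    rw [mul_comm, ← ENNReal.div_le_iff_le_mul (Or.inl hne) (Or.inl hnt)]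
    unfold cap
    refine le_iInf₂ fun u hu => ?_
    rw [ENNReal.div_le_iff_le_mul (Or.inl hne) (Or.inl hnt)]
    obtain ⟨f, rfl⟩ := hD2 u hu.1
    obtain ⟨F, hF1, hF2⟩ := h1 f K hK.isBounded hu.2
    obtain ⟨v, hv1, hv2, hv3, hv4⟩ := h2 F
    have hv : v ∈ {u : E n → ℝ | u ∈ D ∧ ∀ x ∈ K, 1 ≤ u x} := by
      refine ⟨hD1 v hv1 hv2, fun x hx => ?_⟩
      have := hF1 hx
      simp only [Set.mem_iUnion] at this
      obtain ⟨q, hq, hxq⟩ := this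
      exact hv3 q hq x hxq
    refine (iInf₂_le v hv).trans (hv4.trans ?_)
    calc C2 * ∑ q ∈ F, ENNReal.ofReal (side q.1 ^ (max ((n : ℝ) - α * p) 0))
        ≤ C2 * (C1 * triebel Φ α p (cx f)) := by gcongr
      _ = (C2 * C1) * triebel Φ α p (cx f) := by ring
      _ ≤ (C2 * C1 + 1) * triebel Φ α p (cx f) := by gcongr; exact le_self_add
      _ = triebel Φ α p (cx f) * (C2 * C1 + 1) := by ring

end Run7.h224.BC
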