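import Pool.Agent.Run7.h991.BC.Iface

set_option autoImplicit false

open MeasureTheory FourierTransform SchwartzMap
open scoped ENNReal ContDiff

namespace Run7.h224.BC

open Run7.h991.BC

theorem meas_T {n : ℕ} (L : ℝ) (j : ℤ) {f : E n → ℝ≥0∞} (hf : Measurable f) :
    Measurable (T L j f) := by
  unfold T
  refine Measurable.lintegral_prod_right' (f := fun q : E n × E n =>
    f (q.1 - (2 : ℝ) ^ (-j) • q.2) * ENNReal.ofReal (kap L q.2)) ?_
  refine (hf.comp (by fun_prop)).mul (ENNReal.measurable_ofReal.comp ?_)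
  unfold kap
  fun_prop

theorem int_S {n : ℕ} (Φ : 𝓢(E n, ℂ)) (j : ℤ) {v : E n → ℂ} (hv : Continuous v)
    (hB : ∃ B : ℝ, ∀ x, ‖v x‖ ≤ B) (x : E n) :
    Integrable (fun y => Φ y * v (x - (2 : ℝ) ^ (-j) • y)) := by
  obtain ⟨B, hB⟩ := hB
  exact Φ.integrable.mul_bdd (c := B) (by fun_prop) (Filter.Eventually.of_forall fun y => hB _)

theorem S_sub {n : ℕ} (Φ : 𝓢(E n, ℂ)) (j : ℤ) {v w : E n → ℂ} (hv : Continuous v)
    (hB : ∃ B : ℝ, ∀ x, ‖v x‖ ≤ B) (hw : Continuous w) (hB' : ∃ B : ℝ, ∀ x, ‖w x‖ ≤ B)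
    (x : E n) : S Φ j (fun x => v x - w x) x = S Φ j v x - S Φ j w x := by
  unfold S
  rw [← integral_sub (int_S Φ j hv hB x) (int_S Φ j hw hB' x)]
  refine integral_congr_ae (Filter.Eventually.of_forall fun y => ?_)
  simp only
  ring

theorem T_mul {n : ℕ} (L : ℝ) (j : ℤ) (f : E n → ℝ≥0∞) (c : ℝ≥0∞) (hc : c ≠ ⊤) (x : E n) :
    c * T L j f x = T L j (fun x => c * f x) x := by
  unfold T
  rw [← lintegral_const_mul' _ _ hc]
  simp only [mul_assoc]

theorem T_mono {n : ℕ} (L : ℝ) (j : ℤ) {f g : E n → ℝ≥0∞} (h : ∀ x, f x ≤ g x) (x : E n) :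
    T L j f x ≤ T L j g x := by
  unfold T
  exact lintegral_mono fun w => mul_le_mul_left (h _) _

/-- subadditivity -/
theorem rpow_sum_le {ι : Type*} (s : Finset ι) (a : ι → ℝ≥0∞) {p : ℝ} (hp : 0 < p) (hp1 : p ≤ 1) :
    (∑ i ∈ s, a i) ^ p ≤ ∑ i ∈ s, (a i) ^ p := by
  classical
  induction s using Finset.induction_on with
  | empty => simp [hp]
  | insert i s hi ih =>
    rw [Finset.sum_insert hi, Finset.sum_insert hi]
    exact (ENNReal.rpow_add_le_add_rpow _ _ hp.le hp1).trans (by gcongr)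

theorem tele {n : ℕ} (Φ : 𝓢(E n, ℂ)) (v : E n → ℂ) (x : E n) (J : ℕ) :
    ∑ j ∈ Finset.range (J + 1), blk Φ j v x = S Φ (J : ℤ) v x := by
  induction J with
  | zero => simp [blk]
  | succ J ih =>
    rw [Finset.sum_range_succ, ih]
    simp only [blk]
    push_cast
    ring

/-- the constant `2 ^ (j a)` -/
noncomputable def tw (j : ℕ) (a : ℝ) : ℝ≥0∞ := ENNReal.ofReal ((2 : ℝ) ^ ((j : ℝ) * a))

theorem tw_ne_top (j : ℕ) (a : ℝ) : tw j a ≠ ⊤ := by unfold tw; finiteness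

theorem tw_rpow (j : ℕ) (a r : ℝ) (hr : 0 ≤ r) : (tw j a) ^ r = tw j (a * r) := by
  unfold tw
  rw [ENNReal.ofReal_rpow_of_nonneg (by positivity) hr, ← Real.rpow_mul (by norm_num)]
  ring_nf

theorem side_tw (j : ℕ) (a : ℝ) : ENNReal.ofReal (side j ^ a) * tw j a = 1 := by
  unfold side tw
  rw [← ENNReal.ofReal_mul (by positivity), ← Real.rpow_natCast, ← Real.rpow_mul (by norm_num),
    one_div, Real.inv_rpow (by norm_num), inv_mul_cancel₀ (by positivity), ENNReal.ofReal_one]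

theorem t_LB (hDY : S_DY) (hRP : S_RP) (hPE : S_PE) (hTS : S_TS) (hMX : S_MX) (hDG : S_DG) :
    S_LB := by
  intro n Φ hn hΦ α p hα hp hp1
  obtain ⟨-, -, -, -, -, hdy⟩ := hDY n
  have hn1 : (1 : ℝ) ≤ n := by exact_mod_cast hn
  obtain ⟨C1, hC1, h1⟩ := hPE n Φ (p / 2) (n + 1) (by linarith) (by linarith) (by linarith)
  obtain ⟨C2, hC2, h2⟩ := hMX n (n + 1) hn (by linarith)
  have hθ : 0 < α * p := by positivity
  obtain ⟨C3, hC3, h3⟩ := hDG n (α * p) hn hθ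
  have h4 := hTS n (n + 1) (Real.sqrt n) (by linarith) (Real.sqrt_nonneg _)
  set C4 : ℝ≥0∞ := ENNReal.ofReal ((1 + Real.sqrt n) ^ ((n : ℝ) + 1)) with hC4
  have hC4t : C4 ≠ ⊤ := by rw [hC4]; finiteness
  set c2 : ℝ≥0∞ := (2 : ℝ≥0∞) ^ p with hc2
  have hc2t : c2 ≠ ⊤ := by rw [hc2]; exact ENNReal.rpow_ne_top_of_nonneg hp.le (by norm_num)
  refine ⟨C3 * (c2 * (C1 * C4) ^ 2 * C2), by finiteness, fun u K hK hu => ?_⟩
  obtain ⟨r1, r2, r3⟩ := hRP n Φ hΦ u
  obtain ⟨C5, h5⟩ := r3 1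
  -- the blocks
  have hcont : ∀ j : ℕ, Continuous (blk Φ j (cx u)) ∧ ∃ B : ℝ, ∀ x, ‖blk Φ j (cx u) x‖ ≤ B := by
    intro j
    cases j with
    | zero => exact r1 0
    | succ j =>
      obtain ⟨a1, B1, b1⟩ := r1 ((j : ℤ) + 1)
      obtain ⟨a2, B2, b2⟩ := r1 (j : ℤ)
      exact ⟨a1.sub a2, B1 + B2, fun x => (norm_sub_le _ _).trans (add_le_add (b1 x) (b2 x))⟩
  have hrep : ∀ (j : ℕ) (x : E n), blk Φ j (cx u) x = S Φ ((j : ℤ) + 1) (blk Φ j (cx u)) x := by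
    intro j x
    cases j with
    | zero =>
      have := r2 0 1 (by norm_num) x
      have e4 : blk Φ 0 (cx u) = S Φ 0 (cx u) := rfl
      rw [e4]
      simpa using this.symm
    | succ j =>
      have e1 := r2 ((j : ℤ) + 1) ((j : ℤ) + 1 + 1) (by linarith) x
      have e2 := r2 (j : ℤ) ((j : ℤ) + 1 + 1) (by linarith) x
      have e3 := S_sub Φ ((j : ℤ) + 1 + 1) (r1 ((j : ℤ) + 1)).1 (r1 ((j : ℤ) + 1)).2
        (r1 (j : ℤ)).1 (r1 (j : ℤ)).2 x
      have e4 : blk Φ (j + 1) (cx u) =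
        fun x => S Φ ((j : ℤ) + 1) (cx u) x - S Φ (j : ℤ) (cx u) x := rfl
      rw [e4]
      push_cast
      rw [e3, e1, e2]
  set V : ℕ → E n → ℝ≥0∞ := fun j x => ‖blk Φ j (cx u) x‖ₑ with hV
  have hVm : ∀ j, Measurable (V j) := fun j => (hcont j).1.measurable.enorm
  set A : E n → ℝ≥0∞ := fun x => ∑' j : ℕ, (tw j α * V j x) ^ (2 : ℝ) with hA
  have hAm : Measurable A := Measurable.tsum fun j =>
    ((measurable_const.mul (hVm j)).pow_const _)
  set f : E n → ℝ≥0∞ := fun x => A x ^ (p / 4) with hf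
  have hfm : Measurable f := hAm.pow_const _
  set H : E n → ℝ≥0∞ := fun x => ⨆ j : ℕ, T ((n : ℝ) + 1) j f x with hH
  have hHm : Measurable H := Measurable.iSup fun j => meas_T _ _ hfm
  have htri : ∫⁻ x, (f x) ^ 2 = triebel Φ α p (cx u) := by
    unfold triebel
    refine lintegral_congr fun x => ?_
    simp only [hf]
    rw [← ENNReal.rpow_natCast, ← ENNReal.rpow_mul]
    congr 1
    push_cast
    ring
  -- pointwise bound by `f`
  have hpt : ∀ (j : ℕ) (x : E n), tw j (α * (p / 2)) * V j x ^ (p / 2) ≤ f x := by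
    intro j x
    have e1 : (tw j α * V j x) ^ (2 : ℝ) ≤ A x := ENNReal.le_tsum (f := fun j : ℕ =>
      (tw j α * V j x) ^ (2 : ℝ)) j
    have e2 := ENNReal.rpow_le_rpow e1 (show 0 ≤ p / 4 by linarith)
    rw [← ENNReal.rpow_mul, ENNReal.mul_rpow_of_nonneg _ _ (by linarith)] at e2
    have e3 : (2 : ℝ) * (p / 4) = p / 2 := by ring
    rw [e3, tw_rpow _ _ _ (by linarith)] at e2
    exact e2
  have hmain : ∀ (j : ℕ) (x y : E n), cell j x = cell j y →
      tw j (α * p) * V j x ^ p ≤ (C1 * C4) ^ 2 * H y ^ 2 := by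
    intro j x y hxy
    have e1 := h1 (blk Φ j (cx u)) (hcont j).1 (hcont j).2 j (hrep j) x
    have e2 := h4 j f x y (hdy j x y hxy)
    have e3 : tw j (α * (p / 2)) * V j x ^ (p / 2) ≤ C1 * C4 * H y := by
      calc tw j (α * (p / 2)) * V j x ^ (p / 2)
          ≤ tw j (α * (p / 2)) * (C1 * T ((n : ℝ) + 1) j (fun z => V j z ^ (p / 2)) x) := by
            gcongr
        _ = C1 * (tw j (α * (p / 2)) * T ((n : ℝ) + 1) j (fun z => V j z ^ (p / 2)) x) := by ring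
        _ = C1 * T ((n : ℝ) + 1) j (fun z => tw j (α * (p / 2)) * V j z ^ (p / 2)) x := by
            rw [T_mul _ _ _ _ (tw_ne_top _ _)]
        _ ≤ C1 * T ((n : ℝ) + 1) j f x := by
            gcongr
            exact T_mono _ _ (hpt j) x
        _ ≤ C1 * (C4 * T ((n : ℝ) + 1) j f y) := by gcongr
        _ ≤ C1 * (C4 * H y) := by
            gcongr
            exact le_iSup (fun j : ℕ => T ((n : ℝ) + 1) j f y) j
        _ = C1 * C4 * H y := by ring
    have e4 : (tw j (α * (p / 2)) * V j x ^ (p / 2)) ^ 2 ≤ (C1 * C4 * H y) ^ 2 :=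
      pow_le_pow_left' e3 2
    rw [mul_pow, mul_pow (C1 * C4)] at e4
    rw [← ENNReal.rpow_natCast, ← ENNReal.rpow_natCast (V j x ^ (p / 2)),
      tw_rpow _ _ _ (by norm_num), ← ENNReal.rpow_mul] at e4
    have e5 : α * (p / 2) * ((2 : ℕ) : ℝ) = α * p := by push_cast; ring
    have e6 : p / 2 * ((2 : ℕ) : ℝ) = p := by push_cast; ring
    rw [e5, e6] at e4
    exact e4
  -- choice of `J`
  obtain ⟨J, hJ⟩ : ∃ J : ℕ, C5 * (1 / 2 : ℝ) ^ J ≤ 1 / 2 := by
    have : Filter.Tendsto (fun J : ℕ => C5 * (1 / 2 : ℝ) ^ J) Filter.atTop (nhds (C5 * 0)) :=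
      (tendsto_pow_atTop_nhds_zero_of_lt_one (by norm_num) (by norm_num)).const_mul _
    rw [mul_zero] at this
    exact ((this.eventually (ge_mem_nhds (show (0 : ℝ) < 1 / 2 by norm_num)))).exists
  have hlow : ∀ x ∈ K, (1 / 2 : ℝ≥0∞) ≤ ∑ j ∈ Finset.range (J + 1), V j x := by
    intro x hx
    have e1 := h5 J x
    have e2 : ‖cx u x‖ = |u x| := by simp [cx]
    have e3 : (1 / 2 : ℝ) ≤ ‖S Φ (J : ℤ) (cx u) x‖ := by
      have e4 := norm_sub_norm_le (cx u x) (S Φ (J : ℤ) (cx u) x)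
      rw [norm_sub_rev, e2] at e4
      have e5 := hu x hx
      have e6 := le_abs_self (u x)
      rw [mul_one] at e1
      linarith
    rw [← tele] at e3
    have e7 : (1 / 2 : ℝ≥0∞) = ENNReal.ofReal (1 / 2) := by
      rw [ENNReal.ofReal_div_of_pos (by norm_num)]; simp
    rw [e7]
    refine (ENNReal.ofReal_le_ofReal e3).trans ?_
    rw [ofReal_norm]
    exact enorm_sum_le _ _
  have hlowp : ∀ x ∈ K, 1 ≤ ∑ j ∈ Finset.range (J + 1), c2 * V j x ^ p := by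
    intro x hx
    rw [← Finset.mul_sum]
    have e1 := (ENNReal.rpow_le_rpow (hlow x hx) hp.le).trans
      (rpow_sum_le (Finset.range (J + 1)) (fun j => V j x) hp hp1.le)
    calc (1 : ℝ≥0∞) = c2 * (1 / 2 : ℝ≥0∞) ^ p := by
          rw [hc2, ← ENNReal.mul_rpow_of_nonneg _ _ hp.le]
          rw [one_div, ENNReal.mul_inv_cancel (by norm_num) (by norm_num), ENNReal.one_rpow]
      _ ≤ _ := by gcongr
  set g : E n → ℝ≥0∞ := fun y => c2 * ((C1 * C4) ^ 2 * H y ^ 2) with hg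
  have hgm : Measurable g := (((hHm.pow_const 2).const_mul _).const_mul _)
  have hdg : ∀ x ∈ K, 1 ≤ ∑ j ∈ Finset.range (J + 1),
      ENNReal.ofReal (side j ^ (α * p)) * ⨅ y ∈ cube j (cell j x), g y := by
    intro x hx
    refine (hlowp x hx).trans (Finset.sum_le_sum fun j _ => ?_)
    have e1 : tw j (α * p) * (c2 * V j x ^ p) ≤ ⨅ y ∈ cube j (cell j x), g y := by
      refine le_iInf₂ fun y hy => ?_
      have hy' : cell j x = cell j y := hy.symm
      calc tw j (α * p) * (c2 * V j x ^ p) = c2 * (tw j (α * p) * V j x ^ p) := by ring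
        _ ≤ g y := by
          exact mul_le_mul' le_rfl (hmain j x y hy')
    calc c2 * V j x ^ p = ENNReal.ofReal (side j ^ (α * p)) * tw j (α * p) * (c2 * V j x ^ p) := by
          rw [side_tw, one_mul]
      _ = ENNReal.ofReal (side j ^ (α * p)) * (tw j (α * p) * (c2 * V j x ^ p)) := by ring
      _ ≤ _ := by gcongr
  obtain ⟨F, hF1, hF2⟩ := h3 g hgm J K hK hdg
  refine ⟨F, hF1, hF2.trans ?_⟩
  have e1 : ∫⁻ x, g x = c2 * (C1 * C4) ^ 2 * ∫⁻ x, H x ^ 2 := by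
    simp only [hg]
    rw [lintegral_const_mul _ ((hHm.pow_const 2).const_mul _),
      lintegral_const_mul _ (hHm.pow_const 2), mul_assoc]
  rw [e1]
  calc C3 * (c2 * (C1 * C4) ^ 2 * ∫⁻ x, H x ^ 2)
      ≤ C3 * (c2 * (C1 * C4) ^ 2 * (C2 * ∫⁻ x, f x ^ 2)) := by
        gcongr
        exact h2 f hfm
    _ = C3 * (c2 * (C1 * C4) ^ 2 * C2) * triebel Φ α p (cx u) := by
        rw [htri]
        ring

end Run7.h224.BC
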