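import Pool.Agent.Run7.h991.BC.Iface

set_option autoImplicit false

open MeasureTheory FourierTransform SchwartzMap
open scoped ENNReal ContDiff

namespace Run7.h224.BC

open Run7.h991.BC

theorem lint_affine {n : ℕ} (g : ℕ) (b : E n) (f : E n → ℝ≥0∞) :
    ∫⁻ x, f ((2 : ℝ) ^ g • x - b) = ENNReal.ofReal (side g ^ n) * ∫⁻ x, f x := by
  have h2 : ((2 : ℝ) ^ g) ≠ 0 := by positivity
  have h1 : ∫⁻ x, f ((2 : ℝ) ^ g • x - b) =
      ∫⁻ x, f (x - b) ∂(Measure.map (fun x : E n => (2 : ℝ) ^ g • x) volume) := by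
    have := lintegral_map_equiv (μ := (volume : Measure (E n))) (fun x => f (x - b))
      (Homeomorph.smulOfNeZero ((2 : ℝ) ^ g) h2).toMeasurableEquiv
    exact this.symm
  rw [h1, Measure.map_addHaar_smul volume h2, lintegral_smul_measure,
    lintegral_sub_right_eq_self]
  congr 2
  rw [side, abs_of_pos (by positivity), finrank_euclideanSpace, Fintype.card_fin]
  rw [← pow_mul, ← pow_mul, one_div, inv_pow]

theorem t_SC : S_SC := by
  intro n Φ v g b
  refine ⟨fun j x => ?_, lint_affine g b⟩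
  unfold S
  refine integral_congr_ae (Filter.Eventually.of_forall fun y => ?_)
  have h : (2 : ℝ) ^ g * (2 : ℝ) ^ (-j) = (2 : ℝ) ^ (-(j - (g : ℤ))) := by
    rw [← zpow_natCast, ← zpow_add₀ (by norm_num)]
    congr 1
    ring
  simp only
  rw [smul_sub, smul_smul, h, sub_right_comm]

end Run7.h224.BC
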